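import Mathlib
import Pool.Agent.Helper33.Meander.Exponent

set_option autoImplicit false

open Filter Topology Asymptotics
open Pool.Agent.Helper33.Meander

namespace Pool.Agent.Results.MP_fda85d_co.ExponentBound

/-- Let `μ = lim M_n ^ (1/n)` be the growth rate of the meander numbers `M_n = meanders n`.  Then
`∑ M_n μ ^ (-n)` converges, with tails `∑_{n ≥ m} M_n μ ^ (-n) ≤ 40 √μ / √m`.  Consequently, if
`M_n ~ C R ^ (2 n) / n ^ α` for some `C, R > 0` and a real `α`, then `R ^ 2 = μ` and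
`α ≥ 3 / 2`. -/
theorem result : ∃ μ : ℝ, 1 ≤ μ ∧
    Tendsto (fun n : ℕ => (meanders n : ℝ) ^ ((1 : ℝ) / n)) atTop (𝓝 μ) ∧
    Summable (fun n : ℕ => (meanders n : ℝ) / μ ^ n) ∧
    (∀ m : ℕ, 1 ≤ m →
      ∑' n : ℕ, (meanders (n + m) : ℝ) / μ ^ (n + m) ≤ 40 * Real.sqrt μ / Real.sqrt m) ∧
    ∀ C R α : ℝ, 0 < C → 0 < R →
      ((fun n : ℕ => (meanders n : ℝ)) ~[atTop] fun n : ℕ => C * R ^ (2 * n) / (n : ℝ) ^ α) →
      R ^ 2 = μ ∧ 3 / 2 ≤ α :=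
  ⟨mu, one_le_mu, tendsto_root, summable_crit, tail_tsum,
    fun _ _ _ hC hR h => ⟨radius_eq hC hR h, exponent_ge hC hR h⟩⟩

end Pool.Agent.Results.MP_fda85d_co.ExponentBound
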