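import Mathlib
import Pool.Agent.Helper50.MB.Main

set_option autoImplicit false

open Filter Topology
open Pool.Agent.Helper33.Meander

namespace Pool.Agent.Results.MP_fda85d_co.RatioRate

/-- Ratio limit theorem with a rate for the meander numbers `M_n = meanders n`:
`|M_(n+1) / M_n - μ| ≤ C n ^ (-1/4) √(log n)`, where `μ = lim M_n ^ (1 / n)`. -/
theorem result : ∃ μ C : ℝ, 1 ≤ μ ∧
    Tendsto (fun n : ℕ => (meanders n : ℝ) ^ ((1 : ℝ) / n)) atTop (𝓝 μ) ∧
    ∀ n : ℕ, 2 ≤ n → |(meanders (n + 1) : ℝ) / meanders n - μ| ≤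
      C * ((n : ℝ) ^ (-(1 / 4 : ℝ)) * Real.sqrt (Real.log n)) :=
  Pool.Agent.Helper50.MB.ratio_rate

end Pool.Agent.Results.MP_fda85d_co.RatioRate
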