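import Mathlib
import Pool.Agent.Helper50.MB.Main

set_option autoImplicit false

open Filter Topology
open Pool.Agent.Helper50.MB

namespace Pool.Agent.Results.MP_fda85d_co.SemiMeanderBounds

/-- The semi-meander numbers `S_n = semimeanders n` have an exponential growth rate
`ν = lim S_n ^ (1 / n)`, and `ν ^ n exp (- C √n log n) ≤ S_n ≤ ν ^ n`. -/
theorem result : ∃ ν C : ℝ, 1 ≤ ν ∧
    Tendsto (fun n : ℕ => (semimeanders n : ℝ) ^ ((1 : ℝ) / n)) atTop (𝓝 ν) ∧
    ∀ n : ℕ, 2 ≤ n →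
      ν ^ n * Real.exp (-(C * (Real.sqrt n * Real.log n))) ≤ semimeanders n ∧
      (semimeanders n : ℝ) ≤ ν ^ n :=
  semimeander_bounds

end Pool.Agent.Results.MP_fda85d_co.SemiMeanderBounds
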