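import Mathlib
import Pool.Agent.Helper50.MB.Main

set_option autoImplicit false

open Filter Topology
open Pool.Agent.Helper33.Meander

namespace Pool.Agent.Results.MP_fda85d_co.SubexponentialBounds

/-- Unconditional two-sided bounds for the meander numbers `M_n = meanders n` in terms of their
exponential growth rate `μ = R ^ 2 = lim M_n ^ (1 / n)`:
`μ ^ n exp (- C √n log n) ≤ M_n ≤ C μ ^ n / n`. -/
theorem result : ∃ μ C : ℝ, 1 ≤ μ ∧
    Tendsto (fun n : ℕ => (meanders n : ℝ) ^ ((1 : ℝ) / n)) atTop (𝓝 μ) ∧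
    ∀ n : ℕ, 2 ≤ n →
      μ ^ n * Real.exp (-(C * (Real.sqrt n * Real.log n))) ≤ meanders n ∧
      (meanders n : ℝ) ≤ C * μ ^ n / n :=
  Pool.Agent.Helper50.MB.meander_bounds

end Pool.Agent.Results.MP_fda85d_co.SubexponentialBounds
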